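import Mathlib

set_option autoImplicit false

namespace Pool.Agent.Results.MP_88b6d1_co.CoverNumber

open Finset

variable {n : ℕ}

/-- The Boolean matrix `M_f` of a transformation `f`. -/
def M (f : Fin n → Fin n) : Matrix (Fin n) (Fin n) Bool := Matrix.of fun i j => decide (f i = j)

/-- The Boolean sum of some `k` transformation or transposed transformation matrices dominates the
matrix of the linear order `≤` on `Fin n`. -/
def Covers (n k : ℕ) : Prop :=
  ∃ A : Fin k → Matrix (Fin n) (Fin n) Bool, (∀ t, ∃ f, A t = M f ∨ A t = (M f).transpose) ∧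
    ∀ i j, i ≤ j → ∃ t, A t i j = true

theorem S1 (n a : ℕ) : 2 * ∑ i : Fin n, (i.1 + 1 - a) = (n - a) * (n - a + 1) := by
  induction n with
  | zero => simp
  | succ n ih =>
    rw [Fin.sum_univ_castSucc, mul_add]
    simp only [Fin.val_castSucc, Fin.val_last, ih]
    rcases le_or_gt a n with h | h
    · rw [show n + 1 - a = n - a + 1 by omega]; ring
    · rw [show n + 1 - a = 0 by omega, show n - a = 0 by omega]

theorem S2 (n a : ℕ) : 2 * ∑ i : Fin n, (n - i.1 - a) = (n - a) * (n - a + 1) := by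
  rw [← S1, ← Equiv.sum_comp Fin.revPerm]
  congr 1
  refine sum_congr rfl fun i _ => ?_
  simp only [Fin.revPerm_apply, Fin.val_rev]
  omega

theorem cI (i : Fin n) : #{j | i ≤ j} = n - i := by
  rw [← Fin.card_Ici]; congr 1; ext; simp

theorem cI' (j : Fin n) : #{i | i ≤ j} = j + 1 := by
  rw [← Fin.card_Iic]; congr 1; ext; simp

def E (R C : Finset (Fin n)) : ℕ := ∑ i ∈ R, #{j ∈ C | i ≤ j}

theorem E' (R C : Finset (Fin n)) : E R C = ∑ j ∈ C, #{i ∈ R | i ≤ j} := by
  simp only [E, card_filter]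
  exact sum_comm

theorem E_sum (R C : Finset (Fin n)) :
    E R C = ∑ i, ∑ j, if i ∈ R ∧ j ∈ C ∧ i ≤ j then 1 else 0 := by
  simp only [E, card_filter, ite_and, sum_ite_irrel, sum_const_zero, sum_ite_mem, univ_inter]

theorem tot : 2 * E (univ : Finset (Fin n)) univ = n * (n + 1) := by
  simpa [E, cI] using S2 n 0

theorem hall (a b : ℕ) (h : (n - a) * (n - a + 1) + (n - b) * (n - b + 1) ≤ n * (n + 1)) (m : ℕ) :
    ∀ R C : Finset (Fin n), #Rᶜ + #Cᶜ = m → E R C ≤ a * #R + b * #C := by
  induction m using Nat.strong_induction_on with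
  | _ m ih =>
  intro R C hm
  by_cases hU : ∀ i j, i ≤ j → i ∈ R ∨ j ∈ C
  · have e1 : E R C + E (univ : Finset (Fin n)) univ = E R univ + E univ C := by
      simp only [E_sum, ← sum_add_distrib]
      refine sum_congr rfl fun i _ => sum_congr rfl fun j _ => ?_
      have := hU i j
      by_cases h1 : i ∈ R <;> by_cases h2 : j ∈ C <;> by_cases h3 : i ≤ j <;> simp_all
    have e2 : E R univ ≤ a * #R + ∑ i : Fin n, (n - i.1 - a) := by
      refine le_trans ?_ (Nat.add_le_add_left (sum_le_sum_of_subset (subset_univ R)) _)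
      rw [E, mul_comm, ← smul_eq_mul, ← sum_const, ← sum_add_distrib]
      exact sum_le_sum fun i _ => by rw [cI]; omega
    have e3 : E univ C ≤ b * #C + ∑ i : Fin n, (i.1 + 1 - b) := by
      refine le_trans ?_ (Nat.add_le_add_left (sum_le_sum_of_subset (subset_univ C)) _)
      rw [E', mul_comm, ← smul_eq_mul, ← sum_const, ← sum_add_distrib]
      exact sum_le_sum fun i _ => by rw [cI']; omega
    have := S1 n b
    have := S2 n a
    have := tot (n := n)
    omega
  push Not at hU
  obtain ⟨i, j, hij, hi, hj⟩ := hU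
  obtain ⟨l, l1, l2⟩ := exists_max_image Cᶜ id ⟨j, mem_compl.2 hj⟩
  have hl : ∀ x, l < x → x ∈ C := fun x hx => by
    by_contra hc
    exact absurd (l2 x (mem_compl.2 hc)) (not_le.2 hx)
  by_cases c1 : b ≤ #{i ∈ R | i ≤ l}
  · have t := ih _ ?_ R (insert l C) rfl
    · rw [E', sum_insert (mem_compl.1 l1), ← E', card_insert_of_notMem (mem_compl.1 l1),
        mul_add] at t
      omega
    · rw [compl_insert, card_erase_of_mem l1]
      have := card_pos.2 ⟨l, l1⟩
      omega
  by_cases c2 : a ≤ #{j ∈ C | i ≤ j}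
  · have t := ih _ ?_ (insert i R) C rfl
    · rw [E, sum_insert hi, ← E, card_insert_of_notMem hi, mul_add] at t
      omega
    · rw [compl_insert, card_erase_of_mem (mem_compl.2 hi)]
      have := card_pos.2 ⟨i, mem_compl.2 hi⟩
      omega
  have e1 : E R C = E R (C.filter (l < ·)) + E R (C.filter (¬ l < ·)) := by
    simp only [E']
    exact (sum_filter_add_sum_filter_not _ _ _).symm
  have e2 : E R (C.filter (l < ·)) ≤ #R * a := by
    rw [E, ← smul_eq_mul]
    refine sum_le_card_nsmul _ _ _ fun x _ => le_trans (card_le_card fun y hy => ?_) (not_le.1 c2).le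
    simp only [mem_filter] at hy ⊢
    exact ⟨hy.1.1, hij.trans ((l2 j (mem_compl.2 hj)).trans hy.1.2.le)⟩
  have e3 : E R (C.filter (¬ l < ·)) ≤ #C * b := by
    rw [E']
    refine (sum_le_card_nsmul _ _ b fun x hx => le_trans (card_le_card fun y hy => ?_)
      (not_le.1 c1).le).trans (Nat.mul_le_mul_right _ (card_filter_le _ _))
    simp only [mem_filter, not_lt] at hy hx ⊢
    exact ⟨hy.1, hy.2.trans hx.2⟩
  rw [mul_comm a, mul_comm b]
  omega

theorem upper (a b : ℕ) (h : (n - a) * (n - a + 1) + (n - b) * (n - b + 1) ≤ n * (n + 1)) :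
    Covers n (a + b) := by
  classical
  obtain ⟨φ, h1, h2⟩ := (all_card_le_biUnion_card_iff_exists_injective
    fun e : {e : Fin n × Fin n // e.1 ≤ e.2} =>
      (({e.1.1} : Finset (Fin n)) ×ˢ (univ : Finset (Fin a))).disjSum
        (({e.1.2} : Finset (Fin n)) ×ˢ (univ : Finset (Fin b)))).1 fun s => by
    have t := hall a b h _ (s.image (·.1.1)) (s.image (·.1.2)) rfl
    refine le_trans ?_ (t.trans ?_)
    · rw [E, ← card_sigma]
      refine card_le_card_of_injOn (fun e => ⟨e.1.1, e.1.2⟩) (fun e he => ?_) fun e _ e' _ h => ?_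
      · simp only [coe_sigma, Set.mem_sigma_iff, mem_coe, mem_filter]
        exact ⟨mem_image_of_mem _ he, mem_image_of_mem _ he, e.2⟩
      · simp only [Sigma.mk.injEq, heq_eq_eq] at h
        exact Subtype.ext (Prod.ext h.1 h.2)
    · refine le_trans (le_of_eq ?_) (card_le_card (s := (s.image (·.1.1) ×ˢ univ).disjSum
        (s.image (·.1.2) ×ˢ univ)) ?_)
      · simp [mul_comm]
      · rintro (⟨x, y⟩ | ⟨x, y⟩) <;> simp
  let f : Fin a ⊕ Fin b → Fin n → Fin n := fun t x => match t with
    | .inl t => if h : ∃ e, φ e = .inl (x, t) then h.choose.1.2 else x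
    | .inr t => if h : ∃ e, φ e = .inr (x, t) then h.choose.1.1 else x
  refine ⟨fun t => match finSumFinEquiv.symm t with
    | .inl t => M (f (.inl t))
    | .inr t => (M (f (.inr t))).transpose, fun t => ?_, fun i j hij => ?_⟩
  · beta_reduce
    rcases finSumFinEquiv.symm t with t | t
    exacts [⟨_, .inl rfl⟩, ⟨_, .inr rfl⟩]
  · have k := h2 ⟨(i, j), hij⟩
    rcases e : φ ⟨(i, j), hij⟩ with ⟨x, t⟩ | ⟨x, t⟩ <;> rw [e] at k
    · obtain rfl : x = i := Eq.symm (by simpa using k)
      have k1 : ∃ e, φ e = .inl (x, t) := ⟨_, e⟩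
      refine ⟨finSumFinEquiv (.inl t), ?_⟩
      simp only [Equiv.symm_apply_apply, M, Matrix.of_apply, f, dif_pos k1,
        h1 (k1.choose_spec.trans e.symm), decide_true]
    · obtain rfl : x = j := Eq.symm (by simpa using k)
      have k1 : ∃ e, φ e = .inr (x, t) := ⟨_, e⟩
      refine ⟨finSumFinEquiv (.inr t), ?_⟩
      simp only [Equiv.symm_apply_apply, M, Matrix.of_apply, Matrix.transpose_apply, f, dif_pos k1,
        h1 (k1.choose_spec.trans e.symm), decide_true]

theorem lower (k : ℕ) (h : Covers n k) : ∃ a b, a + b = k ∧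
    (n - a) * (n - a + 1) + (n - b) * (n - b + 1) ≤ n * (n + 1) := by
  classical
  obtain ⟨A, h1, h2⟩ := h
  choose f hf using h1
  let P := ({t | A t = M (f t)} : Finset (Fin k))
  refine ⟨#P, #Pᶜ, by simp, ?_⟩
  have e : ∀ (Q : Finset (Fin k)) (I : Finset (Fin n)) (x : Fin n),
      #I - #Q ≤ ∑ y, if y ∈ I ∧ y ∉ Q.image (f · x) then 1 else 0 := fun Q I x => by
    rw [← card_filter]
    refine le_trans (Nat.sub_le_sub_left card_image_le _) ((le_card_sdiff (Q.image (f · x)) I).trans
      (card_le_card fun y hy => ?_))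
    simpa using hy
  rw [← S2, ← S1, ← tot, ← mul_add, E_sum]
  refine Nat.mul_le_mul_left _ ((Nat.add_le_add
    (sum_le_sum fun i _ => (cI i ▸ e P {j | i ≤ j} i :))
    ((sum_le_sum fun j _ => (cI' j ▸ e Pᶜ {i | i ≤ j} j :)).trans sum_comm.le)).trans ?_)
  simp only [← sum_add_distrib]
  refine sum_le_sum fun i _ => sum_le_sum fun j _ => ?_
  by_cases hij : i ≤ j
  · obtain ⟨t, ht⟩ := h2 i j hij
    by_cases hP : t ∈ P
    · have : j ∈ P.image (f · i) := mem_image.2 ⟨t, hP, by
        simpa [(mem_filter.1 hP).2, M] using ht⟩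
      simp only [this, hij, not_true, and_false, if_false, mem_univ, and_self, if_true]
      split_ifs <;> omega
    · have : i ∈ Pᶜ.image (f · j) := mem_image.2 ⟨t, mem_compl.2 hP, by
        simpa [(hf t).resolve_left fun h => hP (mem_filter.2 ⟨mem_univ _, h⟩), M] using ht⟩
      simp only [this, hij, not_true, and_false, if_false, mem_univ, and_self, if_true]
      split_ifs <;> omega
  · simp [hij]

/-- `m(n) = 2n + 1 - ⌊√(2n² + 2n + 1)⌋`. -/
theorem result (n : ℕ) :
    IsLeast {k | Covers n k} (2 * n + 1 - Nat.sqrt (2 * n ^ 2 + 2 * n + 1)) := by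
  constructor
  · have h1 := Nat.sqrt_le' (2 * n ^ 2 + 2 * n + 1)
    have h2 : 0 < Nat.sqrt (2 * n ^ 2 + 2 * n + 1) := Nat.sqrt_pos.2 (by omega)
    generalize Nat.sqrt (2 * n ^ 2 + 2 * n + 1) = q at h1 h2
    have h3 : q ≤ 2 * n + 1 := by
      by_contra h
      nlinarith
    rw [show 2 * n + 1 - q = (n - (q - 1) / 2) + (n - q / 2) by omega]
    refine upper _ _ ?_
    rw [show n - (n - (q - 1) / 2) = (q - 1) / 2 by omega, show n - (n - q / 2) = q / 2 by omega]
    obtain ⟨t, rfl | rfl⟩ := Nat.even_or_odd' q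
    · obtain ⟨t, rfl⟩ : ∃ s, t = s + 1 := ⟨t - 1, by omega⟩
      rw [show (2 * (t + 1) - 1) / 2 = t by omega, show 2 * (t + 1) / 2 = t + 1 by omega]
      ring_nf at h1 ⊢
      omega
    · rw [show (2 * t + 1 - 1) / 2 = t by omega, show (2 * t + 1) / 2 = t by omega]
      ring_nf at h1 ⊢
      omega
  · intro k hk
    obtain ⟨a, b, rfl, h⟩ := lower k hk
    have : n - a + (n - b) + 1 ≤ Nat.sqrt (2 * n ^ 2 + 2 * n + 1) := by
      rw [Nat.le_sqrt']
      generalize n - a = r at h
      generalize n - b = c at h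
      zify at h ⊢
      nlinarith [sq_nonneg ((r : ℤ) - c)]
    omega

end Pool.Agent.Results.MP_88b6d1_co.CoverNumber
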